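import Pool.Agent.H73.GWQ.Stmts

/-! Row B3Q of the board gwq: local to global. -/

set_option autoImplicit false

open Classical

namespace GWQ

namespace B3

variable {G V : Type*} [Group G] (D : QM G V)

theorem nm_inv (g : G) : D.nm g⁻¹ = D.nm g := by
  unfold QM.nm
  have h := D.inv g 1 g⁻¹
  rw [mul_inv_cancel, mul_one] at h
  rw [← h, D.comm]

theorem prw_nil (a b : G) : GWT.prw a b [] = 1 := by simp [GWT.prw]

theorem prw_cons (a b : G) (y : Bool) (l : List Bool) :
    GWT.prw a b (y :: l) = (if y then b else a) * GWT.prw a b l := by simp [GWT.prw]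

theorem prw_append (a b : G) (l l' : List Bool) :
    GWT.prw a b (l ++ l') = GWT.prw a b l * GWT.prw a b l' := by simp [GWT.prw]

theorem prw_inv (a b : G) (l : List Bool) :
    (GWT.prw a b l)⁻¹ = GWT.prw a⁻¹ b⁻¹ l.reverse := by
  induction l with
  | nil => simp [GWT.prw]
  | cons y l ih =>
    rw [prw_cons, mul_inv_rev, ih, List.reverse_cons, prw_append, prw_cons, prw_nil, mul_one]
    cases y <;> rfl

end B3

open B3 in
theorem B3Q {G V : Type*} [Group G] (D : QM G V) (h4 : H4QStmt D) (h1 : B1QStmt D)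
    (h2 : B2QStmt D) : B3QStmt D := by
  intro a b k hP l l'
  have n1 : D.nm (1 : G) = 0 := D.self 1
  rcases l' with _ | ⟨y, l''⟩
  · rw [List.append_nil, prw_nil, n1]
    omega
  by_cases hl : l = []
  · subst hl
    rw [List.nil_append, prw_nil, n1]
    omega
  obtain ⟨c, hc⟩ : ∃ c : G, c = if y then b else a := ⟨_, rfl⟩
  have hcm : c ∈ ({a, b} : Set G) := by
    rw [hc]
    cases y <;> simp
  have hcm' : c⁻¹ ∈ ({a⁻¹, b⁻¹} : Set G) := by
    rw [hc]
    cases y <;> simp
  obtain ⟨p, hp⟩ : ∃ p : G, p = GWT.prw a b l := ⟨_, rfl⟩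
  obtain ⟨r, hr⟩ : ∃ r : G, r = GWT.prw a b l'' := ⟨_, rfl⟩
  have e1 : D.nm p + D.nm c ≤ D.nm (p * c) + 2 * k := by
    have h := h2 a⁻¹ b⁻¹ k (h1 a b k hP).1 c⁻¹ hcm' l.reverse (by simpa using hl)
    rw [← prw_inv, ← hp, ← mul_inv_rev, nm_inv, nm_inv, nm_inv] at h
    omega
  have e2 : D.nm c + D.nm r ≤ D.nm (c * r) + 2 * k := by
    by_cases hl'' : l'' = []
    · rw [hr, hl'', prw_nil, n1, mul_one]
      omega
    · rw [hr]
      exact h2 a b k hP c hcm l'' hl''
  have e3 := hP.long c hcm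
  have e4 := hP.k_pos
  have e5 := hP.hδ
  rw [prw_append, prw_cons, ← hc, ← hp, ← hr]
  have h := h4 1 (p * c) p (p * (c * r))
  have f1 : D.d p (p * (c * r)) = D.nm (c * r) := by
    have := D.inv p 1 (c * r)
    rwa [mul_one] at this
  have f2 : D.d (p * c) (p * (c * r)) = D.nm r := by
    have := D.inv (p * c) 1 r
    rwa [mul_one, mul_assoc] at this
  have f3 : D.d (p * c) p = D.nm c := by
    rw [D.comm]
    have := D.inv p 1 c
    rwa [mul_one] at this
  rw [f1, f2, f3] at h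
  change D.nm (p * c) + D.nm (c * r) ≤
    max (D.nm p + D.nm r) (D.nm (p * (c * r)) + D.nm c) + 4 * D.δ at h
  omega

end GWQ
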