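import Pool.Agent.H73.GWQ.Stmts

/-! Row OVL of the board gwq: overlap of two geodesics in a tree. -/

set_option autoImplicit false

open Classical

namespace GWQ

theorem OVL (V : Type*) : OVLStmt V := by
  intro T hT a b c e τ hτ h
  obtain ⟨P, hP⟩ : ∃ P, P = GWT.cen hT a b e := ⟨_, rfl⟩
  obtain ⟨Q, hQ⟩ : ∃ Q, Q = GWT.cen hT a b c := ⟨_, rfl⟩
  obtain ⟨p1, p2, p3⟩ := GWT.cen_spec hT a b e
  obtain ⟨q1, q2, q3⟩ := GWT.cen_spec hT a b c
  rw [← hP] at p1 p2 p3
  rw [← hQ] at q1 q2 q3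
  rcases le_or_gt (T.dist a Q) (T.dist a P) with hle | hlt
  · exfalso
    obtain ⟨o1, o2⟩ := GWT.ORD hT q1 p1 hle
    unfold GWT.Bt at *
    have t1 := GWT.dtri hT c Q e
    have t2 := GWT.dtri hT Q P e
    have c1 := GWT.dcomm (T := T) c Q
    have c2 := GWT.dcomm (T := T) b Q
    omega
  · obtain ⟨o1, o2⟩ := GWT.ORD hT p1 q1 hlt.le
    have hPQ : P ≠ Q := by
      rintro rfl
      exact lt_irrefl _ hlt
    have c1 := GWT.dcomm (T := T) c Q
    have c2 := GWT.dcomm (T := T) b Q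
    have c3 := GWT.dcomm (T := T) Q P
    have c4 := GWT.dcomm (T := T) b P
    have c5 := GWT.dcomm (T := T) c P
    have b1 : GWT.Bt T c Q P := by
      unfold GWT.Bt at *
      have t1 := GWT.dtri hT a P c
      have t2 := GWT.dtri hT c Q P
      omega
    have b2 : GWT.Bt T Q P e := by
      unfold GWT.Bt at *
      have t1 := GWT.dtri hT b Q e
      have t2 := GWT.dtri hT Q P e
      omega
    obtain ⟨b3, -⟩ := GWT.CAT hT b1 b2 hPQ.symm
    refine ⟨P, Q, ?_, ?_, ?_⟩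
    · unfold GWT.Bt at *
      omega
    · unfold GWT.Bt at *
      omega
    · unfold GWT.Bt at *
      omega

end GWQ
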