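import Pool.Agent.H73.GWQ.Stmts3

/-! Row STR of the board gwq: bottleneck. -/

set_option autoImplicit false

open Classical

universe u v

namespace GWQ

/-- a vertex of a shortest walk lies on a geodesic -/
theorem STR_geo {V : Type u} {X : SimpleGraph V} {a b : V} (γ : X.Walk a b)
    (hγ : γ.length = X.dist a b) (hX : X.Connected) (q : V) (hq : q ∈ γ.support) :
    X.dist a q + X.dist q b = X.dist a b := by
  have h1 := congrArg SimpleGraph.Walk.length (γ.take_spec hq)
  rw [SimpleGraph.Walk.length_append] at h1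
  have h2 := SimpleGraph.dist_le (γ.takeUntil q hq)
  have h3 := SimpleGraph.dist_le (γ.dropUntil q hq)
  have h4 := hX.dist_triangle (u := a) (v := q) (w := b)
  omega

theorem STR (V : Type u) (W : Type v) (hTPW : TPWStmt V W) : STRStmt V W := by
  intro X T hX hT F L h1 h2 o a b p hp hab
  have hE : ∀ x y : V, X.Adj x y → T.dist (F x) (F y) ≤ 2 * L := by
    intro x y hxy
    have h := h1 x y
    rw [SimpleGraph.dist_eq_one_iff_adj.2 hxy] at h
    linarith
  obtain ⟨γ, hγ⟩ := hX.exists_walk_length_eq_dist a o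
  obtain ⟨γ', hγ'⟩ := hX.exists_walk_length_eq_dist o b
  have hex : ∀ j : ℕ, ∃ t : W, j ≤ T.dist (F a) (F b) →
      T.dist (F a) t = j ∧ GWT.Bt T (F a) t (F b) := by
    intro j
    by_cases hj : j ≤ T.dist (F a) (F b)
    · obtain ⟨m, hm⟩ := GWT.EXI hT (F a) (F b) j hj
      exact ⟨m, fun _ => hm⟩
    · exact ⟨F a, fun h => absurd h hj⟩
  choose t ht using hex
  obtain ⟨N, hN⟩ : ∃ N, N = T.dist (F a) (F b) := ⟨_, rfl⟩
  rw [← hN] at ht
  let A : ℕ → Prop := fun j => ∃ q ∈ γ.support, T.dist (F q) (t j) ≤ 2 * L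
  let B : ℕ → Prop := fun j => ∃ q ∈ γ'.support, T.dist (F q) (t j) ≤ 2 * L
  have hAB : ∀ j, j ≤ N → A j ∨ B j := by
    intro j hj
    obtain ⟨q, hq, hqt⟩ := hTPW X T hT F (2 * L) hE a b (γ.append γ') (t j) (ht j hj).2
    rw [SimpleGraph.Walk.mem_support_append_iff] at hq
    rcases hq with hq | hq
    · exact Or.inl ⟨q, hq, hqt⟩
    · exact Or.inr ⟨q, hq, hqt⟩
  have hA0 : A 0 := by
    refine ⟨a, γ.start_mem_support, ?_⟩
    have h := (ht 0 (Nat.zero_le _)).1
    omega
  have hBN : B N := by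
    refine ⟨b, γ'.end_mem_support, ?_⟩
    obtain ⟨h, h'⟩ := ht N le_rfl
    unfold GWT.Bt at h'
    have c := GWT.dcomm (T := T) (t N) (F b)
    omega
  have hj : ∃ j j', j ≤ N ∧ j' ≤ N ∧ A j ∧ B j' ∧ T.dist (t j) (t j') ≤ 1 := by
    by_contra hcon
    push Not at hcon
    have hall : ∀ j, j ≤ N → A j := by
      intro j
      induction j with
      | zero => intro _; exact hA0
      | succ j ih =>
        intro hj
        have hAj := ih (by omega)
        rcases hAB (j + 1) hj with h | h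
        · exact h
        · exfalso
          have h5 := hcon j (j + 1) (by omega) hj hAj h
          obtain ⟨e1, e2⟩ := ht j (by omega)
          obtain ⟨e3, e4⟩ := ht (j + 1) hj
          obtain ⟨e5, -⟩ := GWT.ORD hT e2 e4 (by omega)
          unfold GWT.Bt at e5
          omega
    have h5 := hcon N N le_rfl le_rfl (hall N le_rfl) hBN
    rw [SimpleGraph.dist_self] at h5
    omega
  obtain ⟨j, j', hj1, hj2, ⟨q, hq, hqt⟩, ⟨q', hq', hqt'⟩, hjj⟩ := hj
  -- distances
  have g1 := STR_geo γ hγ hX q hq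
  have g2 := STR_geo γ' hγ' hX q' hq'
  obtain ⟨w, hw, hwt⟩ := hTPW X T hT F (2 * L) hE a b p (t j) (ht j hj1).2
  obtain ⟨w', hw', hwt'⟩ := hTPW X T hT F (2 * L) hE a b p (t j') (ht j' hj2).2
  have k1 : T.dist (F q) (F w) ≤ 4 * L := by
    have := GWT.dtri hT (F q) (t j) (F w)
    have c := GWT.dcomm (T := T) (t j) (F w)
    omega
  have k2 : T.dist (F q') (F w') ≤ 4 * L := by
    have := GWT.dtri hT (F q') (t j') (F w')
    have c := GWT.dcomm (T := T) (t j') (F w')
    omega
  have k3 : T.dist (F q) (F q') ≤ 4 * L + 1 := by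
    have t1 := GWT.dtri hT (F q) (t j) (F q')
    have t2 := GWT.dtri hT (t j) (t j') (F q')
    have c := GWT.dcomm (T := T) (t j') (F q')
    omega
  have m1 : X.dist q w ≤ L * (4 * L + 1) :=
    (h2 q w).trans (Nat.mul_le_mul_left L (by omega))
  have m2 : X.dist q' w' ≤ L * (4 * L + 1) :=
    (h2 q' w').trans (Nat.mul_le_mul_left L (by omega))
  have m3 : X.dist q q' ≤ L * (4 * L + 2) :=
    (h2 q q').trans (Nat.mul_le_mul_left L (by omega))
  have n1 := hp w hw
  have n2 := hp w' hw'
  have t1 := hX.dist_triangle (u := o) (v := q) (w := w)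
  have t2 := hX.dist_triangle (u := o) (v := q') (w := w')
  have t3 := hX.dist_triangle (u := a) (v := q) (w := q')
  have t4 := hX.dist_triangle (u := a) (v := q') (w := b)
  have c1 : X.dist o q = X.dist q o := SimpleGraph.dist_comm
  have c2 : X.dist o a = X.dist a o := SimpleGraph.dist_comm
  have e : L * (12 * L + 4) = L * (4 * L + 1) + L * (4 * L + 2) + L * (4 * L + 1) := by ring
  rw [e]
  omega

end GWQ
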